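import Pool.Agent.Y731.EU.Reps

set_option autoImplicit false

/-!
Euclidean forms over the Hasse domains of the rational numbers.
-/

namespace Pool.Agent.Y731.EU

open Finset Pool.Agent.Results.MP_23f460_nt.SumsOfSquaresEuclidean

/-- the form over `R` with the integer matrix `B` -/
def intForm (R : Subring ℚ) {m : ℕ} (B : Matrix (Fin m) (Fin m) ℤ) : Form R :=
  ⟨m, B.map (Int.castRingHom R)⟩

/-- the values at integer vectors -/
def Q {m : ℕ} (B : Matrix (Fin m) (Fin m) ℤ) (u : Fin m → ℤ) : ℤ :=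
  ∑ i, ∑ j, B i j * u i * u j

/-- the values at rational vectors -/
def QQ {m : ℕ} (B : Matrix (Fin m) (Fin m) ℤ) (u : Fin m → ℚ) : ℚ :=
  ∑ i, ∑ j, (B i j : ℚ) * u i * u j

theorem eval_intForm (R : Subring ℚ) {m : ℕ} (B : Matrix (Fin m) (Fin m) ℤ) (x : Fin m → ℚ) :
    (intForm R B).eval x = QQ B x := by
  change ∑ i : Fin m, ∑ j : Fin m, (((B.map (Int.castRingHom R)) i j : R) : ℚ) * x i * x j = _
  unfold QQ
  refine Finset.sum_congr rfl fun i _ => Finset.sum_congr rfl fun j _ => ?_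
  rw [Matrix.map_apply]
  rfl

theorem QQ_intCast {m : ℕ} (B : Matrix (Fin m) (Fin m) ℤ) (u : Fin m → ℤ) :
    QQ B (fun i => (u i : ℚ)) = (Q B u : ℚ) := by
  unfold QQ Q; push_cast; rfl

theorem QQ_div {m : ℕ} (B : Matrix (Fin m) (Fin m) ℤ) (u : Fin m → ℤ) (d : ℚ) :
    QQ B (fun i => (u i : ℚ) / d) = (Q B u : ℚ) / d ^ 2 := by
  rw [← QQ_intCast]
  unfold QQ
  rw [Finset.sum_div]
  refine Finset.sum_congr rfl fun i _ => ?_
  rw [Finset.sum_div]
  refine Finset.sum_congr rfl fun j _ => ?_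
  rw [mul_div_assoc', mul_div_assoc', div_mul_eq_mul_div, div_div]
  congr 1
  ring

/-- positive definite -/
def PosDef {m : ℕ} (B : Matrix (Fin m) (Fin m) ℤ) : Prop :=
  ∀ x : Fin m → ℚ, x ≠ 0 → 0 < QQ B x

theorem Q_nonneg {m : ℕ} {B : Matrix (Fin m) (Fin m) ℤ} (hB : PosDef B) (u : Fin m → ℤ) :
    0 ≤ Q B u ∧ (Q B u = 0 → u = 0) := by
  have h0 : (fun i => (u i : ℚ)) ≠ 0 → (0 : ℚ) < Q B u := fun h => by
    rw [← QQ_intCast]; exact hB _ h
  by_cases hu : u = 0
  · subst hu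
    have : Q B 0 = 0 := by unfold Q; simp
    exact ⟨this.ge, fun _ => rfl⟩
  · have h1 : (fun i => (u i : ℚ)) ≠ 0 := by
      intro h
      apply hu
      funext i
      have := congrFun h i
      simpa using this
    have h2 : 0 < Q B u := by exact_mod_cast h0 h1
    exact ⟨h2.le, fun h => absurd h h2.ne'⟩

variable {T : Finset ℕ}

/-- elements of the ring of integers -/
theorem int_of_mem {x : ℚ} (hx : x ∈ SInt ∅) : ∃ k : ℤ, x = k := by
  have hden : x.den = 1 := by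
    by_contra hne
    obtain ⟨p, hp, hpd⟩ := Nat.exists_prime_and_dvd hne
    exact not_dvd_den hp (hx p hp (Finset.notMem_empty p)) hpd
  refine ⟨x.num, ?_⟩
  conv_lhs => rw [← Rat.num_div_den x]
  rw [hden, Nat.cast_one, div_one]

theorem nrm_neg {R : Subring ℚ} (r : R) : nrm (-r) = nrm r := by
  have h := nrm_mul_unit r (-1) (-1) (by ring)
  rwa [mul_neg, mul_one] at h

theorem nrm_int {k : ℤ} (r : SInt ∅) (hr : (r : ℚ) = k) : nrm r = k.natAbs := by
  have hfree : ∀ n : ℕ, Free ∅ n := fun n p _ hp => absurd hp (Finset.notMem_empty p)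
  by_cases hk : k = 0
  · subst hk
    have : r = 0 := by
      apply Subtype.ext
      rw [hr]; simp
    rw [this]
    simp [nrm]
  rcases Int.natAbs_eq k with h | h
  · refine nrm_natCast (Int.natAbs_ne_zero.2 hk) (hfree _) r ?_
    have h1 := congrArg (Int.cast : ℤ → ℚ) h
    rw [Int.cast_natCast] at h1
    rw [hr]; exact h1
  · rw [← nrm_neg]
    refine nrm_natCast (Int.natAbs_ne_zero.2 hk) (hfree _) (-r) ?_
    have h1 := congrArg (Int.cast : ℤ → ℚ) h
    rw [Int.cast_neg, Int.cast_natCast] at h1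
    change -(r : ℚ) = _
    rw [hr]; linarith

/-- the Euclidean property over the integers -/
theorem small_rep {m : ℕ} {B : Matrix (Fin m) (Fin m) ℤ} (hB : PosDef B)
    (hE : (intForm (SInt ∅) B).Euclidean) {N : ℕ} (hN : 0 < N) (a : Fin m → ℤ) :
    ∃ u : Fin m → ℤ, (∀ i, (N : ℤ) ∣ u i - a i) ∧ 0 ≤ Q B u ∧ Q B u < (N : ℤ) ^ 2 := by
  have hNq : (N : ℚ) ≠ 0 := by exact_mod_cast hN.ne'
  by_cases hall : ∀ i, (N : ℤ) ∣ a i
  · refine ⟨0, fun i => ?_, ?_, ?_⟩
    · rw [Pi.zero_apply, zero_sub]; exact (hall i).neg_right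
    · exact (Q_nonneg hB 0).1
    · have : Q B 0 = 0 := by unfold Q; simp
      rw [this]
      positivity
  · have hx : ¬ ∀ i : Fin m, (a i : ℚ) / N ∈ SInt ∅ := by
      intro h
      exact hall fun i => dvd_of_mem hN.ne' (fun p _ hp => absurd hp (Finset.notMem_empty p)) (h i)
    obtain ⟨y, α, β, hα, hβ, hev, hlt⟩ := hE (fun i => (a i : ℚ) / N) hx
    change Fin m → SInt ∅ at y
    choose z hz using fun i => int_of_mem (y i).2
    obtain ⟨ka, hka⟩ := int_of_mem α.2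
    obtain ⟨kb, hkb⟩ := int_of_mem β.2
    rw [nrm_int α hka, nrm_int β hkb] at hlt
    have hu : ∀ i, (a i : ℚ) / N - (y i : ℚ) = ((a i - N * z i : ℤ) : ℚ) / N := by
      intro i
      rw [hz i]
      push_cast
      field_simp
    have h1 : (Q B (fun i => a i - N * z i) : ℚ) / (N : ℚ) ^ 2 = (ka : ℚ) / kb := by
      rw [← QQ_div, ← hka, ← hkb, ← hev]
      refine Eq.trans ?_ (eval_intForm (SInt ∅) B _).symm
      exact congrArg (QQ B) (funext fun i => (hu i).symm)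
    have hkb0 : kb ≠ 0 := by
      rintro rfl
      apply hβ
      apply Subtype.ext
      rw [hkb]; simp
    refine ⟨fun i => a i - N * z i, fun i => ⟨-z i, by ring⟩, (Q_nonneg hB _).1, ?_⟩
    have h2 : |(ka : ℚ) / kb| < 1 := by
      rw [abs_div, div_lt_one (abs_pos.2 (by exact_mod_cast hkb0))]
      have h3 : |ka| < |kb| := by
        rw [Int.abs_eq_natAbs, Int.abs_eq_natAbs]; exact_mod_cast hlt
      exact_mod_cast h3
    have h3 : (Q B (fun i => a i - N * z i) : ℚ) / (N : ℚ) ^ 2 < 1 := by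
      rw [h1]; exact (le_abs_self _).trans_lt h2
    rw [div_lt_one (by positivity)] at h3
    exact_mod_cast h3

/-- the main criterion -/
theorem euclidean_of (hT : 2 ∈ T) {k : ℕ} (B : Matrix (Fin k) (Fin k) ℤ) (j : ℕ)
    (H : ∀ (N : ℕ), Odd N → ∀ a : Fin k → ℤ, (¬ ∀ i, (N : ℤ) ∣ a i) → ∃ V : Fin k → ℤ,
      (∀ i, (N : ℤ) ∣ V i - a i) ∧ 0 < Q B V ∧ Q B V < 2 ^ j * (N : ℤ) ^ 2 ∧
        (2 : ℤ) ^ j ∣ Q B V) : (intForm (SInt T) B).Euclidean := by
  intro x hx
  change Fin k → ℚ at x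
  let D : ℕ := ∏ i, (x i).den
  have hD : D ≠ 0 := Finset.prod_ne_zero_iff.mpr (fun i _ => (x i).den_nz)
  obtain ⟨M, N, hMN, hM0, hN0, hM, hN⟩ := factor (T := T) D hD
  have hDx : ∀ i, ∃ a : ℤ, x i = a / (M * N) := by
    intro i
    obtain ⟨c, hc⟩ := Finset.dvd_prod_of_mem (fun i => (x i).den) (Finset.mem_univ i)
    refine ⟨(x i).num * c, ?_⟩
    have h1 : ((M : ℚ) * N) = (x i).den * c := by
      have : (D : ℚ) = (x i).den * c := by exact_mod_cast hc
      rw [← this, hMN]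
      push_cast
      rfl
    have hc0 : (c : ℚ) ≠ 0 := by
      intro h
      have h2 : c = 0 := by exact_mod_cast h
      exact hD (by change D = _ at hc; rw [hc, h2, mul_zero])
    rw [h1]
    push_cast
    rw [mul_div_mul_right _ _ hc0, Rat.num_div_den]
  choose a ha using hDx
  have hNodd : Odd N := by
    rw [← Nat.not_even_iff_odd, even_iff_two_dvd]
    exact hN 2 Nat.prime_two hT
  have hMq : (M : ℚ) ≠ 0 := by exact_mod_cast hM0
  have hNq : (N : ℚ) ≠ 0 := by exact_mod_cast hN0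
  have hna : ¬ ∀ i, (N : ℤ) ∣ a i := by
    intro h
    apply hx
    intro i
    obtain ⟨b, hb⟩ := h i
    have h1 : x i = (b : ℚ) * (M : ℚ)⁻¹ := by
      rw [ha i, hb]
      push_cast
      field_simp
    rw [h1]
    exact (SInt T).mul_mem (icast_mem _) hM
  obtain ⟨v, hv1, hv2, hv3, hv4⟩ := H N hNodd a hna
  choose w hw using hv1
  -- the point of `R ^ n`
  have hy : ∀ i, -((w i : ℚ) * (M : ℚ)⁻¹) ∈ SInt T := fun i =>
    (SInt T).neg_mem ((SInt T).mul_mem (icast_mem _) hM)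
  have hz : ∀ i, x i - -((w i : ℚ) * (M : ℚ)⁻¹) = v i / (M * N) := by
    intro i
    have h1 : (v i : ℚ) - a i = N * w i := by exact_mod_cast hw i
    rw [ha i]
    field_simp
    linear_combination -h1
  let c : ℕ := (Q B v).toNat
  have hc : ((c : ℕ) : ℤ) = Q B v := Int.toNat_of_nonneg hv2.le
  have hc0 : c ≠ 0 := by
    intro h
    rw [h] at hc
    rw [← hc] at hv2
    exact absurd hv2 (lt_irrefl _)
  obtain ⟨M', m, hMm, hM'0, hm0, hM', hm⟩ := factor (T := T) c hc0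
  have hM'q : (M' : ℚ) ≠ 0 := by exact_mod_cast hM'0
  have hmq : (m : ℚ) ≠ 0 := by exact_mod_cast hm0
  -- the power of two
  have h2c : 2 ^ j ∣ c := by
    have : ((2 ^ j : ℕ) : ℤ) ∣ ((c : ℕ) : ℤ) := by
      rw [hc]
      push_cast
      exact hv4
    exact_mod_cast this
  have h2M : 2 ^ j ∣ M' := by
    have hodd : ¬ 2 ∣ m := hm 2 Nat.prime_two hT
    have hcop : Nat.Coprime (2 ^ j) m :=
      Nat.Coprime.pow_left _ ((Nat.Prime.coprime_iff_not_dvd Nat.prime_two).mpr hodd)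
    rw [hMm] at h2c
    exact hcop.dvd_of_dvd_mul_right h2c
  have hMle : 2 ^ j ≤ M' := Nat.le_of_dvd (Nat.pos_of_ne_zero hM'0) h2M
  -- the size
  have hcle : c < 2 ^ j * N ^ 2 := by
    have h1 : ((c : ℕ) : ℤ) < ((2 ^ j * N ^ 2 : ℕ) : ℤ) := by
      rw [hc]; push_cast; exact hv3
    exact_mod_cast h1
  have hlt : m < N ^ 2 := by
    have h1 : 2 ^ j * m < 2 ^ j * N ^ 2 :=
      (Nat.mul_le_mul_right m hMle).trans_lt (hMm ▸ hcle)
    exact Nat.lt_of_mul_lt_mul_left h1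
  -- the fraction
  have hMM : (M' : ℚ) * ((M : ℚ)⁻¹ * (M : ℚ)⁻¹) ∈ SInt T :=
    (SInt T).mul_mem (ncast_mem _) ((SInt T).mul_mem hM hM)
  have hMM' : ((M : ℚ) * M) * (M' : ℚ)⁻¹ ∈ SInt T :=
    (SInt T).mul_mem ((SInt T).mul_mem (ncast_mem _) (ncast_mem _)) hM'
  let u : SInt T := ⟨((M : ℚ) * M) * (M' : ℚ)⁻¹, hMM'⟩
  let u' : SInt T := ⟨(M' : ℚ) * ((M : ℚ)⁻¹ * (M : ℚ)⁻¹), hMM⟩
  have huu : u * u' = 1 := by
    apply Subtype.ext
    change ((M : ℚ) * M) * (M' : ℚ)⁻¹ * ((M' : ℚ) * ((M : ℚ)⁻¹ * (M : ℚ)⁻¹)) = 1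
    field_simp
  let A : SInt T := ⟨(m : ℚ), ncast_mem m⟩
  let B' : SInt T := ⟨((N ^ 2 : ℕ) : ℚ), ncast_mem (N ^ 2)⟩
  have hNfree : Free T (N ^ 2) := by
    intro p hp hpT h
    exact hN p hp hpT (hp.dvd_of_dvd_pow h)
  have hA : nrm A = m := nrm_natCast hm0 hm A rfl
  have hB : nrm B' = N ^ 2 := nrm_natCast (pow_ne_zero 2 hN0) hNfree B' rfl
  refine ⟨fun i => ⟨-((w i : ℚ) * (M : ℚ)⁻¹), hy i⟩, A, B' * u, ?_, ?_, ?_, ?_⟩
  · intro h
    have := congrArg (fun z : SInt T => (z : ℚ)) h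
    exact hmq this
  · intro h
    have h1 := congrArg (fun z : SInt T => (z : ℚ)) h
    change ((N ^ 2 : ℕ) : ℚ) * (((M : ℚ) * M) * (M' : ℚ)⁻¹) = 0 at h1
    push_cast at h1
    have h2 : (N : ℚ) ^ 2 * (((M : ℚ) * M) * (M' : ℚ)⁻¹) ≠ 0 := by positivity
    exact h2 h1
  · refine (eval_intForm (SInt T) B _).trans ?_
    change QQ B (fun i => x i - -((w i : ℚ) * (M : ℚ)⁻¹)) =
      (m : ℚ) / (((N ^ 2 : ℕ) : ℚ) * (((M : ℚ) * M) * (M' : ℚ)⁻¹))
    have h1 : QQ B (fun i => x i - -((w i : ℚ) * (M : ℚ)⁻¹)) = (c : ℚ) / (M * N) ^ 2 := by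
      have h2 : (fun i => x i - -((w i : ℚ) * (M : ℚ)⁻¹)) = fun i => (v i : ℚ) / (M * N) :=
        funext hz
      have h3 : (c : ℚ) = (Q B v : ℚ) := by exact_mod_cast congrArg (fun z : ℤ => (z : ℚ)) hc
      rw [h2, QQ_div, h3]
    rw [h1, hMm]
    push_cast
    field_simp
  · rw [nrm_mul_unit B' u u' huu, hA, hB]
    exact hlt

/-- the matrix of the orthogonal sum of the form with matrix `B` and `n` squares -/
def addSquares {m : ℕ} (B : Matrix (Fin m) (Fin m) ℤ) (n : ℕ) :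
    Matrix (Fin (m + n)) (Fin (m + n)) ℤ :=
  Matrix.reindex finSumFinEquiv finSumFinEquiv (Matrix.fromBlocks B 0 0 1)

theorem QQ_addSquares {m : ℕ} (B : Matrix (Fin m) (Fin m) ℤ) (n : ℕ) (x : Fin (m + n) → ℚ) :
    QQ (addSquares B n) x = QQ B (fun i => x (Fin.castAdd n i)) +
      ∑ i : Fin n, x (Fin.natAdd m i) ^ 2 := by
  unfold QQ
  rw [Fin.sum_univ_add]
  congr 1
  · refine Finset.sum_congr rfl fun i _ => ?_
    rw [Fin.sum_univ_add]
    have h1 : ∑ l : Fin n, ((addSquares B n (Fin.castAdd n i) (Fin.natAdd m l) : ℤ) : ℚ) *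
        x (Fin.castAdd n i) * x (Fin.natAdd m l) = 0 := by
      refine Finset.sum_eq_zero fun l _ => ?_
      simp [addSquares]
    rw [h1, add_zero]
    refine Finset.sum_congr rfl fun l _ => ?_
    simp [addSquares]
  · refine Finset.sum_congr rfl fun i _ => ?_
    rw [Fin.sum_univ_add]
    have h1 : ∑ l : Fin m, ((addSquares B n (Fin.natAdd m i) (Fin.castAdd n l) : ℤ) : ℚ) *
        x (Fin.natAdd m i) * x (Fin.castAdd n l) = 0 := by
      refine Finset.sum_eq_zero fun l _ => ?_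
      simp [addSquares]
    rw [h1, zero_add, Finset.sum_eq_single i]
    · simp [addSquares]; ring
    · intro l _ hl
      simp [addSquares, Matrix.one_apply_ne (Ne.symm hl)]
    · intro h; exact absurd (Finset.mem_univ _) h

theorem Q_addSquares {m : ℕ} (B : Matrix (Fin m) (Fin m) ℤ) (n : ℕ) (u : Fin (m + n) → ℤ) :
    Q (addSquares B n) u = Q B (fun i => u (Fin.castAdd n i)) +
      ∑ i : Fin n, u (Fin.natAdd m i) ^ 2 := by
  have h := QQ_addSquares B n (fun i => (u i : ℚ))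
  rw [QQ_intCast, QQ_intCast B (fun i => u (Fin.castAdd n i))] at h
  exact_mod_cast h

theorem posDef_addSquares {m : ℕ} {B : Matrix (Fin m) (Fin m) ℤ} (hB : PosDef B) (n : ℕ) :
    PosDef (addSquares B n) := by
  intro x hx
  rw [QQ_addSquares]
  have h1 : 0 ≤ ∑ i : Fin n, x (Fin.natAdd m i) ^ 2 := Finset.sum_nonneg fun _ _ => sq_nonneg _
  by_cases h : (fun i => x (Fin.castAdd n i)) = 0
  · have h2 : QQ B (fun i => x (Fin.castAdd n i)) = 0 := by
      rw [h]; unfold QQ; simp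
    rw [h2, zero_add]
    refine lt_of_le_of_ne h1 fun h3 => hx ?_
    have h4 := sum_sq_eq_zero (fun i => x (Fin.natAdd m i)) h3.symm
    funext i
    refine Fin.addCases (fun l => ?_) (fun l => ?_) i
    · exact congrFun h l
    · exact congrFun h4 l
  · have := hB _ h
    linarith

/-- positive definite forms are anisotropic and nondegenerate -/
theorem nondeg_of_posDef {R : Subring ℚ} {m : ℕ} {B : Matrix (Fin m) (Fin m) ℤ} (hB : PosDef B) :
    (intForm R B).Nondegenerate ∧ (intForm R B).Anisotropic := by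
  refine ⟨?_, fun x hx => ?_⟩
  · change (B.map (Int.castRingHom R) + (B.map (Int.castRingHom R)).transpose).det ≠ 0
    intro h
    set C : Matrix (Fin m) (Fin m) ℚ := B.map (Int.cast) + (B.map (Int.cast)).transpose with hC
    have h1 : C.det = 0 := by
      have h2 := congrArg R.subtype h
      rw [map_zero, RingHom.map_det] at h2
      rw [← h2]
      congr 1
    obtain ⟨v, hv0, hv⟩ := Matrix.exists_mulVec_eq_zero_iff.2 h1
    have h3 : v ⬝ᵥ C.mulVec v = 2 * QQ B v := by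
      rw [hC, Matrix.add_mulVec, dotProduct_add, two_mul]
      have h4 : v ⬝ᵥ (B.map (Int.cast) : Matrix (Fin m) (Fin m) ℚ).mulVec v = QQ B v := by
        unfold QQ dotProduct Matrix.mulVec dotProduct
        refine Finset.sum_congr rfl fun i _ => ?_
        rw [Finset.mul_sum]
        refine Finset.sum_congr rfl fun j _ => ?_
        change v i * (((B i j : ℤ) : ℚ) * v j) = _
        ring
      have h5 : v ⬝ᵥ ((B.map (Int.cast) : Matrix (Fin m) (Fin m) ℚ).transpose).mulVec v = QQ B v := by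
        rw [Matrix.mulVec_transpose, dotProduct_comm, ← Matrix.dotProduct_mulVec]
        exact h4
      rw [h4, h5]
    rw [hv, dotProduct_zero] at h3
    have h4 := hB v hv0
    linarith
  · exact fun h => (hB x hx).ne' ((eval_intForm R B x).symm.trans h)

/-- **All forms `f + x_1 ^ 2 + ... + x_n ^ 2`.** -/
theorem euclidean_addSquares (hT : 2 ∈ T) {m : ℕ} {B : Matrix (Fin m) (Fin m) ℤ} (hB : PosDef B)
    (hE : (intForm (SInt ∅) B).Euclidean) (n : ℕ) :
    (intForm (SInt T) (addSquares B n)).Euclidean := by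
  set j := Nat.log 2 (n + 1) with hj
  have h1 : 2 ^ j ≤ n + 1 := Nat.pow_log_le_self 2 (by omega)
  have h2 : n + 1 < 2 ^ (j + 1) := Nat.lt_pow_succ_log_self (by norm_num) _
  refine euclidean_of hT (addSquares B n) j fun N hN a ha => ?_
  obtain ⟨u, hu1, hu2, hu3⟩ := small_rep hB hE hN.pos (fun i => a (Fin.castAdd n i))
  have hpos : 0 < 2 ^ j := by positivity
  rw [pow_succ] at h2
  obtain ⟨v, hv1, hv2, hv3⟩ := reps j n N hN (by omega) (by omega)
    (fun i => a (Fin.natAdd m i)) (Q B u)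
  have hV : Q (addSquares B n) (Fin.append u v) = Q B u + ∑ i, (v i) ^ 2 := by
    rw [Q_addSquares]
    simp only [Fin.append_left, Fin.append_right]
  have hd : ∀ i, (N : ℤ) ∣ (Fin.append u v) i - a i := by
    intro i
    refine Fin.addCases (fun l => ?_) (fun l => ?_) i
    · rw [Fin.append_left]; exact hu1 l
    · rw [Fin.append_right]; exact hv1 l
  have hnn := Q_nonneg (posDef_addSquares hB n) (Fin.append u v)
  refine ⟨Fin.append u v, hd, lt_of_le_of_ne hnn.1 fun h => ha fun i => ?_, ?_, ?_⟩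
  · have h3 := hd i
    rw [hnn.2 h.symm, Pi.zero_apply, zero_sub] at h3
    exact (dvd_neg.1 h3)
  · rw [hV]
    have h4 : (2 : ℤ) ^ j * (N : ℤ) ^ 2 = (N : ℤ) ^ 2 + (2 ^ j - 1) * (N : ℤ) ^ 2 := by ring
    rw [h4]; linarith
  · rw [hV]; exact hv3

/-- sums of squares -/
theorem intForm_one (R : Subring ℚ) (n : ℕ) :
    intForm R (1 : Matrix (Fin n) (Fin n) ℤ) = sumSq R n := by
  unfold intForm sumSq
  rw [Matrix.map_one _ (map_zero _) (map_one _)]

theorem euclidean_sumSq' (hT : 2 ∈ T) (n : ℕ) : (sumSq (SInt T) n).Euclidean := by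
  rw [← intForm_one]
  set j := Nat.log 2 (n + 1) with hj
  have h1 : 2 ^ j ≤ n + 1 := Nat.pow_log_le_self 2 (by omega)
  have h2 : n + 1 < 2 ^ (j + 1) := Nat.lt_pow_succ_log_self (by norm_num) _
  refine euclidean_of hT 1 j fun N hN a ha => ?_
  have hpos : 0 < 2 ^ j := by positivity
  rw [pow_succ] at h2
  obtain ⟨v, hv1, hv2, hv3⟩ := reps j n N hN (by omega) (by omega) a 0
  have hV : Q (1 : Matrix (Fin n) (Fin n) ℤ) v = ∑ i, (v i) ^ 2 := by
    unfold Q
    refine Finset.sum_congr rfl fun i _ => ?_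
    rw [Finset.sum_eq_single i]
    · rw [Matrix.one_apply_eq]; ring
    · intro l _ hl
      rw [Matrix.one_apply_ne (Ne.symm hl)]; ring
    · intro h; exact absurd (Finset.mem_univ _) h
  have hnn : 0 ≤ ∑ i, (v i) ^ 2 := Finset.sum_nonneg fun _ _ => sq_nonneg _
  refine ⟨v, hv1, ?_, ?_, ?_⟩
  · rw [hV]
    refine lt_of_le_of_ne hnn fun h => ha fun i => ?_
    rw [eq_comm, Finset.sum_eq_zero_iff_of_nonneg (fun i _ => sq_nonneg _)] at h
    have h3 := hv1 i
    rw [pow_eq_zero_iff (two_ne_zero) |>.mp (h i (Finset.mem_univ _)), zero_sub] at h3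
    exact dvd_neg.1 h3
  · rw [hV]
    have hN0 : (0 : ℤ) < (N : ℤ) ^ 2 := by
      have := hN.pos
      positivity
    have h4 : (2 : ℤ) ^ j * (N : ℤ) ^ 2 = (N : ℤ) ^ 2 + (2 ^ j - 1) * (N : ℤ) ^ 2 := by ring
    rw [h4]; linarith
  · rw [hV]
    simpa using hv3

end Pool.Agent.Y731.EU
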