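import Pool.Agent.Y731.EU.Main

set_option autoImplicit false

/-!
Sums of `n` squares, `n` divisible by four, are not Euclidean over a Hasse domain of the rational
numbers in which `2` is not a unit.
-/

namespace Pool.Agent.Y731.EU

open Finset Pool.Agent.Results.MP_23f460_nt.SumsOfSquaresEuclidean

variable {T : Finset ℕ}

/-- denominators are units -/
theorem inv_den_mem {x : ℚ} (hx : x ∈ SInt T) : ((x.den : ℕ) : ℚ)⁻¹ ∈ SInt T := by
  obtain ⟨M, N, hMN, hM0, hN0, hM, hN⟩ := factor (T := T) x.den x.den_nz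
  have hN1 : N = 1 := by
    by_contra hne
    obtain ⟨p, hp, hpd⟩ := Nat.exists_prime_and_dvd hne
    by_cases hpT : p ∈ T
    · exact hN p hp hpT hpd
    · exact not_dvd_den hp (hx p hp hpT) (by rw [hMN]; exact hpd.mul_left M)
  rw [hMN, hN1, mul_one]
  exact hM

/-- every element is the product of a unit and a natural number without prime factors in `T` -/
theorem repr_unit (r : SInt T) (hr : r ≠ 0) : ∃ m : ℕ, m ≠ 0 ∧ Free T m ∧
    ∃ u w : SInt T, u * w = 1 ∧ r = (m : SInt T) * u := by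
  have hr0 : (r : ℚ) ≠ 0 := fun h => hr (Subtype.ext h)
  have hn : (r : ℚ).num.natAbs ≠ 0 := Int.natAbs_ne_zero.2 (Rat.num_ne_zero.2 hr0)
  obtain ⟨M, N, hMN, hM0, hN0, hM, hN⟩ := factor (T := T) _ hn
  have hd := inv_den_mem r.2
  have hMq : (M : ℚ) ≠ 0 := by exact_mod_cast hM0
  have hdq : (((r : ℚ).den : ℕ) : ℚ) ≠ 0 := by exact_mod_cast (r : ℚ).den_nz
  obtain ⟨σ, hσ, hσ1⟩ : ∃ σ : ℤ, ((r : ℚ).num : ℤ) = σ * (M * N : ℕ) ∧ σ * σ = 1 := by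
    rcases Int.natAbs_eq (r : ℚ).num with h | h
    · exact ⟨1, by rw [← hMN, one_mul]; exact h, by norm_num⟩
    · exact ⟨-1, by rw [← hMN, neg_one_mul]; exact h, by norm_num⟩
  have hσq : (σ : ℚ) * σ = 1 := by exact_mod_cast hσ1
  refine ⟨N, hN0, hN,
    ⟨(σ : ℚ) * M * (((r : ℚ).den : ℕ) : ℚ)⁻¹, (SInt T).mul_mem ((SInt T).mul_mem (icast_mem _)
      (ncast_mem _)) hd⟩,
    ⟨(σ : ℚ) * (((r : ℚ).den : ℕ) : ℚ) * (M : ℚ)⁻¹, (SInt T).mul_mem ((SInt T).mul_mem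
      (icast_mem _) (ncast_mem _)) hM⟩, ?_, ?_⟩
  · apply Subtype.ext
    change (σ : ℚ) * M * (((r : ℚ).den : ℕ) : ℚ)⁻¹ * ((σ : ℚ) * (((r : ℚ).den : ℕ) : ℚ) *
      (M : ℚ)⁻¹) = 1
    calc _ = ((σ : ℚ) * σ) * (M * (M : ℚ)⁻¹) *
          ((((r : ℚ).den : ℕ) : ℚ) * (((r : ℚ).den : ℕ) : ℚ)⁻¹) := by ring
      _ = 1 := by rw [hσq, mul_inv_cancel₀ hMq, mul_inv_cancel₀ hdq]; norm_num
  · apply Subtype.ext
    change (r : ℚ) = (((N : ℕ) : SInt T) : ℚ) * ((σ : ℚ) * M * (((r : ℚ).den : ℕ) : ℚ)⁻¹)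
    have h1 : (((N : ℕ) : SInt T) : ℚ) = (N : ℚ) := by push_cast; rfl
    rw [h1]
    have h2 : (r : ℚ) = ((r : ℚ).num : ℚ) * (((r : ℚ).den : ℕ) : ℚ)⁻¹ := by
      rw [← div_eq_mul_inv, Rat.num_div_den]
    have h3 : (((r : ℚ).num : ℤ) : ℚ) = (σ : ℚ) * (M * N) := by
      have := congrArg (Int.cast : ℤ → ℚ) hσ
      push_cast at this
      exact this
    have h4 : ((r : ℚ).num : ℚ) * (((r : ℚ).den : ℕ) : ℚ)⁻¹ = (σ : ℚ) * (M * N) *
        (((r : ℚ).den : ℕ) : ℚ)⁻¹ := by rw [h3]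
    have h5 : (r : ℚ) = (σ : ℚ) * (M * N) * (((r : ℚ).den : ℕ) : ℚ)⁻¹ := h2.trans h4
    exact h5.trans (by ring)

theorem nrm_le_mul (b e : SInt T) (hb : b ≠ 0) (he : e ≠ 0) : nrm b ≤ nrm (b * e) := by
  obtain ⟨m1, hm1, hf1, u1, w1, h1, h1'⟩ := repr_unit b hb
  obtain ⟨m2, hm2, hf2, u2, w2, h2, h2'⟩ := repr_unit e he
  have hu : u1 * u2 * (w1 * w2) = 1 := by
    calc u1 * u2 * (w1 * w2) = (u1 * w1) * (u2 * w2) := by ring
      _ = 1 := by rw [h1, h2, one_mul]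
  have hf : Free T (m1 * m2) := by
    intro p hp hpT h
    rcases (Nat.Prime.dvd_mul hp).1 h with h | h
    · exact hf1 p hp hpT h
    · exact hf2 p hp hpT h
  have hb1 : nrm b = m1 := by
    rw [h1', nrm_mul_unit _ u1 w1 h1]
    exact nrm_natCast hm1 hf1 _ (by push_cast; rfl)
  have hbe : nrm (b * e) = m1 * m2 := by
    have h3 : b * e = ((m1 * m2 : ℕ) : SInt T) * (u1 * u2) := by
      rw [h1', h2']; push_cast; ring
    rw [h3, nrm_mul_unit _ (u1 * u2) (w1 * w2) hu]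
    exact nrm_natCast (mul_ne_zero hm1 hm2) hf _ (by push_cast; rfl)
  rw [hb1, hbe]
  exact Nat.le_mul_of_pos_right _ (Nat.pos_of_ne_zero hm2)

theorem not_euclidean (hT : 2 ∉ T) {n : ℕ} (hn : 0 < n) (h4 : 4 ∣ n) :
    ¬ (sumSq (SInt T) n).Euclidean := by
  intro hE
  have hhalf : ((1 : ℚ) / 2) ∉ SInt T := by
    intro h
    have h1 := not_dvd_den Nat.prime_two (h 2 Nat.prime_two hT)
    apply h1
    have : ((1 : ℚ) / 2).den = 2 := by norm_num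
    rw [this]
  obtain ⟨y, a, b, ha, hb, hev, hlt⟩ := hE (fun _ => (1 : ℚ) / 2) (fun h => hhalf (h ⟨0, hn⟩))
  change Fin n → SInt T at y
  replace hev : ∑ i : Fin n, ((1 : ℚ) / 2 - (y i : ℚ)) ^ 2 = (a : ℚ) / (b : ℚ) :=
    (eval_sumSq (SInt T) n _).symm.trans hev
  -- a common denominator
  let D : ℕ := ∏ i, (y i : ℚ).den
  have hD : D ≠ 0 := Finset.prod_ne_zero_iff.mpr (fun i _ => (y i : ℚ).den_nz)
  have hDq : (D : ℚ) ≠ 0 := by exact_mod_cast hD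
  have hDodd : Odd (D : ℤ) := by
    rw [← Int.not_even_iff_odd, even_iff_two_dvd]
    intro h
    have h1 : 2 ∣ D := by exact_mod_cast h
    obtain ⟨i, -, hi⟩ := (Nat.prime_two.prime.dvd_finsetProd_iff _).1 h1
    exact not_dvd_den Nat.prime_two ((y i).2 2 Nat.prime_two hT) hi
  have hDinv : ((D : ℕ) : ℚ)⁻¹ ∈ SInt T := by
    have h1 : ((D : ℕ) : ℚ)⁻¹ = ∏ i, ((((y i : ℚ).den : ℕ) : ℚ))⁻¹ := by
      rw [Finset.prod_inv_distrib]
      congr 1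
      exact_mod_cast rfl
    rw [h1]
    exact (SInt T).prod_mem fun i _ => inv_den_mem (y i).2
  have hDx : ∀ i, ∃ k : ℤ, (y i : ℚ) = k / D := by
    intro i
    obtain ⟨c, hc⟩ := Finset.dvd_prod_of_mem (fun i => (y i : ℚ).den) (Finset.mem_univ i)
    refine ⟨(y i : ℚ).num * c, ?_⟩
    have h1 : (D : ℚ) = (y i : ℚ).den * c := by exact_mod_cast hc
    have hc0 : (c : ℚ) ≠ 0 := by
      intro h
      rw [h, mul_zero] at h1
      exact hDq h1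
    rw [h1]
    push_cast
    rw [mul_div_mul_right _ _ hc0, Rat.num_div_den]
  choose k hk using hDx
  have hodd : ∀ i, ∃ c : ℤ, ((D : ℤ) - 2 * k i) ^ 2 = 4 * c + 1 := by
    intro i
    obtain ⟨c, hc⟩ := hDodd
    refine ⟨(c - k i) ^ 2 + (c - k i), ?_⟩
    rw [hc]; ring
  choose c hc using hodd
  obtain ⟨n', rfl⟩ := h4
  have hsum : ∑ i, ((D : ℤ) - 2 * k i) ^ 2 = 4 * (∑ i, c i + n') := by
    rw [Finset.sum_congr rfl fun i _ => hc i, Finset.sum_add_distrib, ← Finset.mul_sum]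
    simp only [Finset.sum_const, Finset.card_univ, Fintype.card_fin, nsmul_eq_mul, mul_one]
    push_cast; ring
  set E : ℤ := ∑ i, c i + n' with hEdef
  have hval : (a : ℚ) / (b : ℚ) = (E : ℚ) * ((D : ℚ)⁻¹ * (D : ℚ)⁻¹) := by
    rw [← hev]
    have h1 : ∀ i, ((1 : ℚ) / 2 - (y i : ℚ)) ^ 2 =
        ((((D : ℤ) - 2 * k i) ^ 2 : ℤ) : ℚ) * (1 / 4 * ((D : ℚ)⁻¹ * (D : ℚ)⁻¹)) := by
      intro i
      rw [hk i]
      push_cast
      field_simp
      ring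
    rw [Finset.sum_congr rfl fun i _ => h1 i, ← Finset.sum_mul, ← Int.cast_sum, hsum]
    push_cast
    ring
  let e : SInt T := ⟨(E : ℚ) * ((D : ℚ)⁻¹ * (D : ℚ)⁻¹),
    (SInt T).mul_mem (icast_mem _) ((SInt T).mul_mem hDinv hDinv)⟩
  have hbq : (b : ℚ) ≠ 0 := fun h => hb (Subtype.ext h)
  have hab : a = b * e := by
    apply Subtype.ext
    change (a : ℚ) = (b : ℚ) * ((E : ℚ) * ((D : ℚ)⁻¹ * (D : ℚ)⁻¹))
    rw [← hval]
    field_simp
  have he : e ≠ 0 := by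
    intro h
    rw [h, mul_zero] at hab
    exact ha hab
  have := nrm_le_mul b e hb he
  rw [← hab] at this
  omega

end Pool.Agent.Y731.EU
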