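import Pool.Agent.Results.MP_23f460_nt.SumsOfSquaresEuclidean

set_option autoImplicit false

/-!
Small representatives of residue classes with a sum of squares divisible by a power of two.
-/

namespace Pool.Agent.Y731.EU

open Finset Pool.Agent.Results.MP_23f460_nt.SumsOfSquaresEuclidean

/-- the `K` indices with the largest values -/
theorem exists_top {n : ℕ} (ρ : Fin n → ℤ) {K : ℕ} (hK : K ≤ n) :
    ∃ B : Finset (Fin n), B.card = K ∧ ∀ i ∈ B, ∀ k ∉ B, ρ k ≤ ρ i := by
  classical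
  have hne : (Finset.powersetCard K (Finset.univ : Finset (Fin n))).Nonempty := by
    rw [Finset.powersetCard_nonempty]
    simpa using hK
  obtain ⟨B, hB, hmax⟩ := Finset.exists_max_image _ (fun B => ∑ i ∈ B, ρ i) hne
  rw [Finset.mem_powersetCard] at hB
  refine ⟨B, hB.2, fun i hi k hk => ?_⟩
  have h1 : insert k (B.erase i) ∈ Finset.powersetCard K (Finset.univ : Finset (Fin n)) := by
    rw [Finset.mem_powersetCard]
    refine ⟨Finset.subset_univ _, ?_⟩
    rw [Finset.card_insert_of_notMem (fun h => hk (Finset.mem_of_mem_erase h)),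
      Finset.card_erase_of_mem hi]
    have : 0 < B.card := Finset.card_pos.2 ⟨i, hi⟩
    omega
  have h2 := hmax _ h1
  rw [Finset.sum_insert (fun h => hk (Finset.mem_of_mem_erase h))] at h2
  have h3 := Finset.add_sum_erase B ρ hi
  linarith

/-- the nearest representative -/
theorem exists_near {N : ℕ} (hN : 0 < N) (a : ℤ) : ∃ r : ℤ, (N : ℤ) ∣ r - a ∧ 2 * |r| ≤ N := by
  have hN' : (0 : ℤ) < N := by exact_mod_cast hN
  have h0 := Int.emod_nonneg a hN'.ne'
  have h1 := Int.emod_lt_of_pos a hN'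
  have hd : (N : ℤ) ∣ a % N - a := ⟨-(a / N), by
    have h := Int.emod_def a N
    rw [h]; ring⟩
  by_cases h : 2 * (a % N) ≤ N
  · exact ⟨a % N, hd, by rw [abs_of_nonneg h0]; exact h⟩
  · refine ⟨a % N - N, ?_, ?_⟩
    · have h2 : a % (N : ℤ) - N - a = (a % N - a) - N := by ring
      rw [h2]; exact dvd_sub hd (dvd_refl _)
    · rw [abs_of_neg (by linarith)]
      linarith

/-- the other representative -/
theorem exists_far {N : ℕ} (r : ℤ) (hr : 2 * |r| ≤ N) :
    ∃ r' : ℤ, (N : ℤ) ∣ r' - r ∧ |r'| = N - |r| ∧ (r' = r + N ∨ r' = r - N) := by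
  rcases le_total 0 r with h | h
  · refine ⟨r - N, ⟨-1, by ring⟩, ?_, Or.inr rfl⟩
    rw [abs_of_nonneg h] at hr ⊢
    rw [abs_of_nonpos (by linarith)]
    ring
  · refine ⟨r + N, ⟨1, by ring⟩, ?_, Or.inl rfl⟩
    rw [abs_of_nonpos h] at hr ⊢
    rw [abs_of_nonneg (by linarith)]
    ring

/-- small representatives -/
theorem reps (j n N : ℕ) (hN : Odd N) (hn1 : 2 ^ j - 1 ≤ n) (hn2 : n ≤ 4 * (2 ^ j - 1))
    (a : Fin n → ℤ) (g : ℤ) :
    ∃ v : Fin n → ℤ, (∀ i, (N : ℤ) ∣ v i - a i) ∧ ∑ i, (v i) ^ 2 ≤ (2 ^ j - 1) * (N : ℤ) ^ 2 ∧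
      (2 : ℤ) ^ j ∣ g + ∑ i, (v i) ^ 2 := by
  classical
  have hNpos : 0 < N := hN.pos
  have : NeZero (2 ^ j) := ⟨by positivity⟩
  choose r hrd hr using fun i => exists_near hNpos (a i)
  choose r' hrd' hr' hr'' using fun i => exists_far (r i) (hr i)
  obtain ⟨B, hBc, hB⟩ := exists_top (fun i => |r i|) hn1
  let D : Fin n → ℤ := fun i => (r' i) ^ 2 - (r i) ^ 2
  have hD : ∀ i, IsUnit ((D i : ℤ) : ZMod (2 ^ j)) := by
    intro i
    have h2 : Odd (N : ℤ) := by exact_mod_cast hN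
    have hodd : Odd (D i) := by
      rcases hr'' i with h | h
      · have h1 : D i = (N : ℤ) * (N + 2 * r i) := by simp only [D]; rw [h]; ring
        rw [h1]
        exact h2.mul (h2.add_even ⟨r i, by ring⟩)
      · have h1 : D i = (N : ℤ) * (N - 2 * r i) := by simp only [D]; rw [h]; ring
        rw [h1]
        exact h2.mul (h2.sub_even ⟨r i, by ring⟩)
    have hcop : IsCoprime (D i) ((2 ^ j : ℕ) : ℤ) := by
      push_cast
      exact (Int.isCoprime_iff_gcd_eq_one.mpr (by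
        have := Int.isCoprime_iff_gcd_eq_one.mp (Int.isCoprime_two_right.mpr hodd)
        exact this)).pow_right
    exact (ZMod.coe_int_isUnit_iff_isCoprime _ _).mpr hcop.symm
  obtain ⟨A, hA, hA'⟩ := card_sums (fun i => ((D i : ℤ) : ZMod (2 ^ j)))
    (fun i => (((r i) ^ 2 : ℤ) : ZMod (2 ^ j))) hD B
  have hpos : 0 < 2 ^ j := by positivity
  have hcard : B.card + 1 = 2 ^ j := by rw [hBc]; omega
  rw [hcard, min_self] at hA
  have hAu : A = Finset.univ := by
    rw [← Finset.card_eq_iff_eq_univ, ZMod.card]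
    refine le_antisymm ?_ hA
    exact (Finset.card_le_univ A).trans (by rw [ZMod.card])
  obtain ⟨t, ht⟩ := hA' (-((g : ℤ) : ZMod (2 ^ j)) - ∑ i ∈ Bᶜ, (((r i) ^ 2 : ℤ) : ZMod (2 ^ j)))
    (by rw [hAu]; exact Finset.mem_univ _)
  let v : Fin n → ℤ := fun i => if i ∈ B ∧ t i = true then r' i else r i
  have hvB : ∀ i ∉ B, v i = r i := by
    intro i hi
    simp only [v]
    rw [if_neg (fun h => hi h.1)]
  refine ⟨v, fun i => ?_, ?_, ?_⟩
  · simp only [v]
    split_ifs
    · have h1 : r' i - a i = (r' i - r i) + (r i - a i) := by ring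
      rw [h1]; exact dvd_add (hrd' i) (hrd i)
    · exact hrd i
  · -- the size
    rcases Nat.eq_zero_or_pos (2 ^ j - 1) with h0 | h0
    · have hn0 : n = 0 := by omega
      subst hn0
      have h2 : (0 : ℤ) ≤ 2 ^ j - 1 := by
        have : (1 : ℤ) ≤ 2 ^ j := one_le_pow₀ (by norm_num)
        linarith
      rw [Finset.sum_eq_zero (fun i _ => i.elim0)]
      positivity
    · have hBne : B.Nonempty := by rw [← Finset.card_pos, hBc]; exact h0
      obtain ⟨i₀, hi₀, hmin⟩ := Finset.exists_min_image B (fun i => |r i|) hBne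
      set ρ : ℤ := |r i₀| with hρ
      have hρ0 : 0 ≤ ρ := abs_nonneg _
      have hρN : 2 * ρ ≤ N := hr i₀
      have h1 : ∀ i ∈ B, (v i) ^ 2 ≤ ((N : ℤ) - ρ) ^ 2 := by
        intro i hi
        have h3 : |v i| ≤ (N : ℤ) - ρ := by
          have h4 := hmin i hi
          simp only [v]
          split_ifs
          · rw [hr' i]; linarith
          · have := hr i
            have h5 := hmin i hi
            linarith
        rw [← sq_abs]
        exact pow_le_pow_left₀ (abs_nonneg _) h3 2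
      have h2 : ∀ i ∈ Bᶜ, (v i) ^ 2 ≤ ρ ^ 2 := by
        intro i hi
        rw [Finset.mem_compl] at hi
        rw [hvB i hi, ← sq_abs]
        exact pow_le_pow_left₀ (abs_nonneg _) (hB i₀ hi₀ i hi) 2
      have h3 : ∑ i, (v i) ^ 2 ≤ (B.card : ℤ) * ((N : ℤ) - ρ) ^ 2 + (Bᶜ.card : ℤ) * ρ ^ 2 := by
        rw [← Finset.sum_add_sum_compl B]
        refine add_le_add ?_ ?_
        · refine (Finset.sum_le_sum h1).trans ?_
          rw [Finset.sum_const, nsmul_eq_mul]
        · refine (Finset.sum_le_sum h2).trans ?_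
          rw [Finset.sum_const, nsmul_eq_mul]
      have h4 : (B.card : ℤ) = 2 ^ j - 1 := by
        have : ((B.card + 1 : ℕ) : ℤ) = ((2 ^ j : ℕ) : ℤ) := by rw [hcard]
        push_cast at this
        linarith
      have h5 : (Bᶜ.card : ℤ) ≤ 3 * (2 ^ j - 1) := by
        have h6 : Bᶜ.card + B.card = n := by
          rw [Finset.card_compl, Fintype.card_fin]
          have : B.card ≤ n := by rw [hBc]; exact hn1
          omega
        have h7 : ((2 ^ j - 1 : ℕ) : ℤ) = 2 ^ j - 1 := by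
          rw [Nat.cast_sub hpos]; push_cast; rfl
        have h8 : Bᶜ.card ≤ 3 * (2 ^ j - 1) := by
          rw [hBc] at h6; omega
        have h9 : (Bᶜ.card : ℤ) ≤ ((3 * (2 ^ j - 1) : ℕ) : ℤ) := by exact_mod_cast h8
        rw [Nat.cast_mul, h7] at h9
        exact_mod_cast h9
      have h6 : (0 : ℤ) ≤ 2 ^ j - 1 := by rw [← h4]; positivity
      have h7 : (Bᶜ.card : ℤ) * ρ ^ 2 ≤ 3 * (2 ^ j - 1) * ρ ^ 2 :=
        mul_le_mul_of_nonneg_right h5 (sq_nonneg _)
      rw [h4] at h3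
      have h8 : ((2 : ℤ) ^ j - 1) * ((N : ℤ) - ρ) ^ 2 + 3 * (2 ^ j - 1) * ρ ^ 2 =
          (2 ^ j - 1) * (N : ℤ) ^ 2 - (2 ^ j - 1) * (2 * ρ * (N - 2 * ρ)) := by ring
      have h9 : 0 ≤ ((2 : ℤ) ^ j - 1) * (2 * ρ * (N - 2 * ρ)) :=
        mul_nonneg h6 (mul_nonneg (by linarith) (by linarith))
      linarith
  · have h1 : ((g + ∑ i, (v i) ^ 2 : ℤ) : ZMod (2 ^ j)) = 0 := by
      rw [← Finset.sum_add_sum_compl B]
      push_cast
      have h2 : ∑ i ∈ B, ((v i : ℤ) : ZMod (2 ^ j)) ^ 2 =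
          ∑ i ∈ B, ((((r i) ^ 2 : ℤ) : ZMod (2 ^ j)) + if t i then ((D i : ℤ) : ZMod (2 ^ j)) else 0) := by
        refine Finset.sum_congr rfl fun i hi => ?_
        by_cases h : t i = true
        · simp only [v, D]
          rw [if_pos ⟨hi, h⟩, if_pos h]
          push_cast; ring
        · simp only [v]
          rw [if_neg (fun h' => h h'.2), if_neg h]
          push_cast; ring
      have h3 : ∑ i ∈ Bᶜ, ((v i : ℤ) : ZMod (2 ^ j)) ^ 2 =
          ∑ i ∈ Bᶜ, (((r i) ^ 2 : ℤ) : ZMod (2 ^ j)) := by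
        refine Finset.sum_congr rfl fun i hi => ?_
        rw [Finset.mem_compl] at hi
        rw [hvB i hi]; push_cast; rfl
      rw [h2, h3, ← ht]
      ring
    rw [ZMod.intCast_zmod_eq_zero_iff_dvd] at h1
    exact_mod_cast h1

end Pool.Agent.Y731.EU
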